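import Mathlib

/-!
# A group with compact closures of countable subgroups and no stationary winning strategy in `Ssp`

Let `W` be an uncountable set and let `G` be the group of all homomorphisms
`φ : (P(W), Δ) → ℤ/2` which only depend on the trace on some countable set `A` (depending on `φ`),
with the topology of pointwise convergence.  The closure of every countable subgroup of `G` is
compact, but player `P` has no stationary winning strategy in the selectively sequentially
pseudocompact game on `G`.
-/

set_option autoImplicit false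

open Topology Filter Set

namespace Pool.Agent.Results.MP_13df43_gt.NoStationary

/-- Player `P` has a stationary winning strategy in the game `Ssp(X)`: a map `s` which picks a point
`s U ∈ U` in every non-empty open set `U`, such that for every sequence `(U n)` of non-empty open
sets the sequence `(s (U n))` has a subsequence which converges in `X`. -/
def StationaryWinning (X : Type*) [TopologicalSpace X] : Prop :=
  ∃ s : {U : Set X // IsOpen U ∧ U.Nonempty} → X, (∀ U, s U ∈ U.1) ∧
    ∀ U : ℕ → {U : Set X // IsOpen U ∧ U.Nonempty},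
      ∃ (ψ : ℕ → ℕ) (x : X), StrictMono ψ ∧ Tendsto (fun n => s (U (ψ n))) atTop (𝓝 x)

/-- The group `G`: the homomorphisms `φ` from `(P(W), Δ)` to `ℤ/2` which only depend on the trace on
a countable set. -/
def grp (W : Type) : AddSubgroup (Set W → ZMod 2) where
  carrier := {φ | (∀ x y : Set W, φ (symmDiff x y) = φ x + φ y) ∧
    ∃ A : Set W, A.Countable ∧ ∀ x, φ x = φ (x ∩ A)}
  add_mem' := by
    rintro φ ψ ⟨h1, A, hA, h2⟩ ⟨h3, B, hB, h4⟩
    refine ⟨fun x y => ?_, A ∪ B, hA.union hB, fun x => ?_⟩
    · simp only [Pi.add_apply, h1, h3]; ring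
    · have e1 : φ (x ∩ (A ∪ B)) = φ x := by
        rw [h2 (x ∩ (A ∪ B)), h2 x, inter_assoc, inter_eq_self_of_subset_right subset_union_left]
      have e2 : ψ (x ∩ (A ∪ B)) = ψ x := by
        rw [h4 (x ∩ (A ∪ B)), h4 x, inter_assoc, inter_eq_self_of_subset_right subset_union_right]
      simp only [Pi.add_apply, e1, e2]
  zero_mem' := ⟨fun _ _ => by simp, ∅, countable_empty, fun _ => rfl⟩
  neg_mem' := by
    rintro φ ⟨h1, A, hA, h2⟩
    refine ⟨fun x y => ?_, A, hA, fun x => ?_⟩
    · simp only [Pi.neg_apply, h1]; ring
    · simp only [Pi.neg_apply]; rw [h2 x]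

theorem compact_closure (W : Type) (H : AddSubgroup (grp W)) (hH : (H : Set (grp W)).Countable) :
    IsCompact (closure (H : Set (grp W))) := by
  choose! A hA using fun φ : grp W => φ.2.2
  -- the countable set on which all elements of `H` depend
  set B : Set W := ⋃ φ ∈ (H : Set (grp W)), A φ with hB
  have hBc : B.Countable := hH.biUnion (fun φ _ => (hA φ).1)
  -- the compact group of all homomorphisms depending on the trace on `B`
  set K : Set (Set W → ZMod 2) := {φ | (∀ x y : Set W, φ (symmDiff x y) = φ x + φ y) ∧
    ∀ x, φ x = φ (x ∩ B)} with hK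
  have hKcl : IsClosed K := by
    have : K = (⋂ (x : Set W) (y : Set W), {φ : Set W → ZMod 2 | φ (symmDiff x y) = φ x + φ y}) ∩
        ⋂ x : Set W, {φ : Set W → ZMod 2 | φ x = φ (x ∩ B)} := by
      ext φ
      simp [hK]
    rw [this]
    refine IsClosed.inter ?_ ?_
    · refine isClosed_iInter fun x => isClosed_iInter fun y => isClosed_eq ?_ ?_
      · exact continuous_apply _
      · have hadd : Continuous (fun p : ZMod 2 × ZMod 2 => p.1 + p.2) :=
          continuous_of_discreteTopology
        have hpair : Continuous (fun φ : Set W → ZMod 2 => (φ x, φ y)) :=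
          (continuous_apply x).prodMk (continuous_apply y)
        exact hadd.comp hpair
    · refine isClosed_iInter fun x => isClosed_eq ?_ ?_
      · exact continuous_apply _
      · exact continuous_apply _
  have hKc : IsCompact K := hKcl.isCompact
  have hKG : K ⊆ (grp W : Set (Set W → ZMod 2)) := fun φ hφ => ⟨hφ.1, B, hBc, hφ.2⟩
  -- its preimage in `G` is compact
  set K' : Set (grp W) := (fun φ : grp W => (φ : Set W → ZMod 2)) ⁻¹' K with hK'
  have hK'c : IsCompact K' := by
    rw [Subtype.isCompact_iff]
    have : ((fun φ : grp W => (φ : Set W → ZMod 2)) '' K') = K := by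
      rw [hK']
      apply image_preimage_eq_of_subset
      intro φ hφ
      exact ⟨⟨φ, hKG hφ⟩, rfl⟩
    exact this ▸ hKc
  refine hK'c.of_isClosed_subset isClosed_closure ?_
  refine closure_minimal ?_ (hKcl.preimage continuous_subtype_val)
  intro φ hφ
  refine ⟨φ.2.1, fun x => ?_⟩
  have hsub : A φ ⊆ B := subset_biUnion_of_mem (u := fun φ => A φ) hφ
  show (φ : Set W → ZMod 2) x = (φ : Set W → ZMod 2) (x ∩ B)
  rw [(hA φ).2 (x ∩ B), (hA φ).2 x, inter_assoc, inter_eq_self_of_subset_right hsub]

/-- `φ_n (x) = ε_n` can be solved when `φ_n ({a_n}) = 1` and `a_m` is outside of the countable set of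
`φ_n` for `m > n`. -/
theorem exists_pattern {W : Type} (φ : ℕ → grp W) (A : ℕ → Set W)
    (hA : ∀ n x, (φ n : Set W → ZMod 2) x = (φ n : Set W → ZMod 2) (x ∩ A n)) (a : ℕ → W)
    (ha : ∀ n, (φ n : Set W → ZMod 2) {a n} = 1) (hd : ∀ n m, n < m → a m ∉ A n)
    (ε : ℕ → ZMod 2) : ∃ x : Set W, ∀ n, (φ n : Set W → ZMod 2) x = ε n := by
  classical
  -- `a n ∈ A n`
  have h0 : ∀ n, (φ n : Set W → ZMod 2) ∅ = 0 := by
    intro n
    have := (φ n).2.1 ∅ ∅
    simpa using this
  have haA : ∀ n, a n ∈ A n := by
    intro n
    by_contra h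
    have h1 := hA n {a n}
    rw [ha n, singleton_inter_eq_empty.2 h, h0 n] at h1
    exact one_ne_zero h1
  have hinj : ∀ n m, n < m → a m ≠ a n := fun n m h e => hd n m h (e ▸ haA n)
  -- finite approximations
  let F : ℕ → Set W := fun n => Nat.rec (motive := fun _ => Set W) ∅
    (fun n S => if (φ n : Set W → ZMod 2) S = ε n then S else S ∪ {a n}) n
  have hF0 : F 0 = ∅ := rfl
  have hF1 : ∀ n, F (n + 1) = if (φ n : Set W → ZMod 2) (F n) = ε n then F n else F n ∪ {a n} :=
    fun n => rfl
  have hsub : ∀ n, F n ⊆ {w | ∃ k < n, w = a k} := by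
    intro n
    induction n with
    | zero => intro w hw; exact absurd hw (by simp [hF0])
    | succ n ih =>
      intro w hw
      rw [hF1] at hw
      split_ifs at hw with h
      · obtain ⟨k, hk, e⟩ := ih hw
        exact ⟨k, by omega, e⟩
      · rcases hw with hw | hw
        · obtain ⟨k, hk, e⟩ := ih hw
          exact ⟨k, by omega, e⟩
        · exact ⟨n, by omega, hw⟩
  have hmono : ∀ n, F n ⊆ F (n + 1) := by
    intro n
    rw [hF1]
    split_ifs
    · exact subset_rfl
    · exact subset_union_left
  have hmono' : Monotone F := monotone_nat_of_le_succ hmono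
  -- the elements of `F m` in `A n` are already in `F (n+1)`
  have hnew : ∀ n m, F m ∩ A n ⊆ F (n + 1) := by
    intro n m
    induction m with
    | zero => intro w hw; exact absurd hw.1 (by simp [hF0])
    | succ m ih =>
      intro w hw
      rcases Nat.lt_or_ge n m with h | h
      · rw [hF1] at hw
        split_ifs at hw with h'
        · exact ih hw
        · rcases hw with ⟨hw | hw, hw2⟩
          · exact ih ⟨hw, hw2⟩
          · have : w = a m := hw
            exact absurd (this ▸ hw2) (hd n m h)
      · exact hmono' (by omega : m + 1 ≤ n + 1) hw.1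
  refine ⟨⋃ n, F n, fun n => ?_⟩
  have e1 : (⋃ m, F m) ∩ A n = F (n + 1) ∩ A n := by
    apply subset_antisymm
    · rintro w ⟨hw, hwA⟩
      obtain ⟨m, hm⟩ := mem_iUnion.1 hw
      exact ⟨hnew n m ⟨hm, hwA⟩, hwA⟩
    · exact inter_subset_inter_left _ (subset_iUnion F (n + 1))
  rw [hA n, e1, ← hA n, hF1]
  split_ifs with h
  · exact h
  · have hdisj : Disjoint (F n) {a n} := by
      rw [disjoint_singleton_right]
      intro hc
      obtain ⟨k, hk, e⟩ := hsub n hc
      exact hinj k n hk e
    have e2 : F n ∪ {a n} = symmDiff (F n) {a n} := by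
      rw [Disjoint.symmDiff_eq_sup hdisj]
      rfl
    rw [e2, (φ n).2.1, ha n]
    generalize (φ n : Set W → ZMod 2) (F n) = u at *
    generalize ε n = v at *
    revert u v
    decide

theorem no_stationary (W : Type) [Uncountable W] : ¬ StationaryWinning (grp W) := by
  classical
  rintro ⟨s, hs, hwin⟩
  -- the open sets `U_w = {φ : φ ({w}) = 1}`
  have hopen : ∀ w : W, IsOpen {φ : grp W | (φ : Set W → ZMod 2) {w} = 1} := by
    intro w
    have : Continuous (fun φ : grp W => (φ : Set W → ZMod 2) {w}) :=
      (continuous_apply _).comp continuous_subtype_val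
    exact (isOpen_discrete ({1} : Set (ZMod 2))).preimage this
  have hne : ∀ w : W, {φ : grp W | (φ : Set W → ZMod 2) {w} = 1}.Nonempty := by
    intro w
    refine ⟨⟨fun x => if w ∈ x then 1 else 0, ?_, {w}, countable_singleton w, ?_⟩, ?_⟩
    · intro x y
      by_cases hx : w ∈ x <;> by_cases hy : w ∈ y <;> simp [mem_symmDiff, hx, hy]
      decide
    · intro x
      simp
    · simp
  let U : W → {U : Set (grp W) // IsOpen U ∧ U.Nonempty} := fun w =>
    ⟨{φ : grp W | (φ : Set W → ZMod 2) {w} = 1}, hopen w, hne w⟩
  choose A hA using fun w : W => (s (U w)).2.2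
  have hval : ∀ w, ((s (U w) : grp W) : Set W → ZMod 2) {w} = 1 := fun w => hs (U w)
  -- choose the points
  have hstep : ∀ C : Set W, C.Countable → ∃ w, w ∉ C := by
    intro C hC
    by_contra h
    push Not at h
    have : (univ : Set W).Countable := hC.mono (fun w _ => h w)
    exact not_countable (countable_univ_iff.1 this)
  choose! pick hpick using hstep
  -- recursion on the union of the countable sets used so far
  let C : ℕ → Set W := fun n => Nat.rec (motive := fun _ => Set W) ∅
    (fun _ S => S ∪ A (pick S)) n
  have hC1 : ∀ n, C (n + 1) = C n ∪ A (pick (C n)) := fun n => rfl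
  have hCc : ∀ n, (C n).Countable := by
    intro n
    induction n with
    | zero => exact countable_empty
    | succ n ih => rw [hC1]; exact ih.union (hA _).1
  have hCm : Monotone C := monotone_nat_of_le_succ (fun n => by
    rw [hC1]; exact subset_union_left)
  let a : ℕ → W := fun n => pick (C n)
  have had : ∀ n m, n < m → a m ∉ A (a n) := by
    intro n m h hc
    have h1 : A (a n) ⊆ C m := by
      refine subset_trans ?_ (hCm (Nat.succ_le_of_lt h))
      show A (pick (C n)) ⊆ C (n + 1)
      rw [hC1]
      exact subset_union_right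
    exact hpick (C m) (hCc m) (h1 hc)
  obtain ⟨ψ, x, hψ, hx⟩ := hwin (fun n => U (a n))
  -- the pattern
  obtain ⟨y, hy⟩ := exists_pattern (fun n => s (U (a n))) (fun n => A (a n))
    (fun n x => (hA (a n)).2 x) a (fun n => hval (a n)) had
    (fun n => if ∃ k, ψ (2 * k) = n then 1 else 0)
  have hlim : Tendsto (fun n => ((s (U (a (ψ n))) : grp W) : Set W → ZMod 2) y) atTop
      (𝓝 ((x : Set W → ZMod 2) y)) :=
    (((continuous_apply y).comp continuous_subtype_val).tendsto x).comp hx
  rw [nhds_discrete, tendsto_pure] at hlim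
  obtain ⟨N, hN⟩ := eventually_atTop.1 hlim
  have h1 := hN (2 * N) (by omega)
  have h2 := hN (2 * N + 1) (by omega)
  rw [hy] at h1 h2
  rw [if_pos ⟨N, rfl⟩] at h1
  rw [if_neg] at h2
  · rw [← h1] at h2
    exact zero_ne_one h2
  · rintro ⟨k, hk⟩
    have := hψ.injective hk
    omega

/-- There is an (abelian, Boolean) Hausdorff topological group `G` in which the closure of every
countable subgroup is compact, but player `P` has no stationary winning strategy in the game
`Ssp(G)`. -/
theorem result : ∃ (G : Type) (_ : AddCommGroup G) (_ : TopologicalSpace G),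
    IsTopologicalAddGroup G ∧ T2Space G ∧ (∀ g : G, g + g = 0) ∧
      (∀ H : AddSubgroup G, (H : Set G).Countable → IsCompact (closure (H : Set G))) ∧
      ¬ StationaryWinning G := by
  refine ⟨grp ℝ, inferInstance, inferInstance, inferInstance, inferInstance, ?_, ?_, ?_⟩
  · intro g
    apply Subtype.ext
    funext x
    show (g : Set ℝ → ZMod 2) x + (g : Set ℝ → ZMod 2) x = 0
    exact CharTwo.add_self_eq_zero _
  · exact fun H hH => compact_closure ℝ H hH
  · exact no_stationary ℝ

end Pool.Agent.Results.MP_13df43_gt.NoStationary
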